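import Pool.Agent.Helper85_CYD.StG

/-!
# PRM: the derivative of the cyclotomic polynomial of odd prime order is irreducible
-/

set_option autoImplicit false

namespace Pool.Agent.CYD.H7

open Polynomial Finset

/-- the shifted derivative -/
noncomputable def ff (p : ℕ) : ℤ[X] := (derivative (cyclotomic p ℤ)).comp (X + 1)

theorem cp_coeff (p : ℕ) (hp : p.Prime) (i : ℕ) :
    ((cyclotomic p ℤ).comp (X + 1)).coeff i = (p.choose (i + 1) : ℤ) := by
  have := Fact.mk hp
  rw [cyclotomic_prime, geom_sum_X_comp_X_add_one_eq_sum, finsetSum_coeff]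
  simp only [← C_eq_natCast, coeff_C_mul_X_pow]
  rcases lt_or_ge i p with h | h
  · rw [Finset.sum_eq_single i]
    · simp
    · intro b _ hb
      rw [if_neg (Ne.symm hb)]
    · intro h1
      exact absurd (Finset.mem_range.2 h) h1
  · rw [Nat.choose_eq_zero_of_lt (by omega)]
    rw [Finset.sum_eq_zero]
    · simp
    · intro b hb
      rw [if_neg]
      have := Finset.mem_range.1 hb
      omega

theorem ff_coeff (p : ℕ) (hp : p.Prime) (i : ℕ) :
    (ff p).coeff i = (p.choose (i + 2) : ℤ) * (i + 1) := by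
  have h : ff p = derivative ((cyclotomic p ℤ).comp (X + 1)) := by
    rw [derivative_comp]
    simp [ff]
  rw [h, coeff_derivative, cp_coeff p hp]

theorem ff_natDegree (p : ℕ) (hp : p.Prime) (h2 : p ≠ 2) : (ff p).natDegree = p - 2 := by
  have hp2 := hp.two_le
  apply natDegree_eq_of_le_of_coeff_ne_zero
  · rw [natDegree_le_iff_coeff_eq_zero]
    intro N hN
    rw [ff_coeff p hp, Nat.choose_eq_zero_of_lt (by omega)]
    simp
  · rw [ff_coeff p hp]
    have : p - 2 + 2 = p := by omega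
    rw [this, Nat.choose_self]
    push_cast
    positivity

theorem ff_lead (p : ℕ) (hp : p.Prime) (h2 : p ≠ 2) : (ff p).leadingCoeff = (p : ℤ) - 1 := by
  have hp2 := hp.two_le
  rw [leadingCoeff, ff_natDegree p hp h2, ff_coeff p hp]
  have : p - 2 + 2 = p := by omega
  rw [this, Nat.choose_self]
  have h3 : ((p - 2 : ℕ) : ℤ) = (p : ℤ) - 2 := by
    rw [Nat.cast_sub hp2]
    rfl
  rw [h3]
  ring

theorem ff_primitive (p : ℕ) (hp : p.Prime) (h2 : p ≠ 2) : (ff p).IsPrimitive := by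
  have hp2 := hp.two_le
  have hp3 : 3 ≤ p := by omega
  intro r hr
  rw [C_dvd_iff_dvd_coeff] at hr
  have h1 := hr (p - 2)
  have h3 := hr (p - 3)
  rw [ff_coeff p hp] at h1 h3
  have e1 : p - 2 + 2 = p := by omega
  have e3 : p - 3 + 2 = p - 1 := by omega
  rw [e1, Nat.choose_self] at h1
  rw [e3] at h3
  have e4 : p.choose (p - 1) = p := by
    rw [Nat.choose_symm (by omega : 1 ≤ p)]
    exact Nat.choose_one_right p
  rw [e4] at h3
  have c1 : ((p - 2 : ℕ) : ℤ) = (p : ℤ) - 2 := by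
    rw [Nat.cast_sub hp2]
    rfl
  have c3 : ((p - 3 : ℕ) : ℤ) = (p : ℤ) - 3 := by
    rw [Nat.cast_sub hp3]
    rfl
  rw [c1] at h1
  rw [c3] at h3
  have h4 : r ∣ ((p : ℤ) - 1) * ((p : ℤ) - 1) := by
    have : r ∣ ((1 : ℕ) : ℤ) * ((p : ℤ) - 2 + 1) * ((p : ℤ) - 1) := Dvd.dvd.mul_right h1 _
    have e : ((1 : ℕ) : ℤ) * ((p : ℤ) - 2 + 1) * ((p : ℤ) - 1) = ((p : ℤ) - 1) * ((p : ℤ) - 1) := by
      push_cast
      ring
    rwa [e] at this
  have h5 := dvd_sub h4 h3
  have e5 : ((p : ℤ) - 1) * ((p : ℤ) - 1) - (p : ℤ) * ((p : ℤ) - 3 + 1) = 1 := by ring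
  rw [e5] at h5
  exact isUnit_of_dvd_one h5

theorem ff_eisenstein (p : ℕ) (hp : p.Prime) (h2 : p ≠ 2) :
    (ff p).IsEisensteinAt (Ideal.span {(p : ℤ)}) := by
  have hp2 := hp.two_le
  have hpz : Prime (p : ℤ) := Nat.prime_iff_prime_int.1 hp
  refine ⟨?_, ?_, ?_⟩
  · rw [ff_lead p hp h2, Ideal.mem_span_singleton]
    intro h
    have h1 : (p : ℤ) ∣ 1 := by
      have := dvd_sub (dvd_refl (p : ℤ)) h
      have e : (p : ℤ) - ((p : ℤ) - 1) = 1 := by ring
      rwa [e] at this
    exact hpz.not_dvd_one h1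
  · intro n hn
    rw [ff_natDegree p hp h2] at hn
    rw [ff_coeff p hp, Ideal.mem_span_singleton]
    apply Dvd.dvd.mul_right
    exact Int.natCast_dvd_natCast.2 (hp.dvd_choose_self (by omega) (by omega))
  · rw [ff_coeff p hp, Ideal.span_singleton_pow, Ideal.mem_span_singleton]
    intro h
    have h1 : ((p : ℤ)) ^ 2 ∣ ((p.choose 2 : ℕ) : ℤ) := by simpa using h
    have h3 : p ^ 2 ∣ p.choose 2 := by exact_mod_cast h1
    have h4 : p.choose 2 < p ^ 2 := by
      rw [Nat.choose_two_right]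
      have : p * (p - 1) / 2 ≤ p * (p - 1) := Nat.div_le_self _ _
      have h5 : p * (p - 1) < p ^ 2 := by
        rw [pow_two]
        exact Nat.mul_lt_mul_of_pos_left (by omega) (by omega)
      omega
    have h6 : 0 < p.choose 2 := Nat.choose_pos hp2
    exact absurd (Nat.le_of_dvd h6 h3) (by omega)

theorem ff_irreducible (p : ℕ) (hp : p.Prime) (h2 : p ≠ 2) : Irreducible (ff p) := by
  have hp2 := hp.two_le
  refine (ff_eisenstein p hp h2).irreducible ?_ (ff_primitive p hp h2) ?_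
  · exact (Ideal.span_singleton_prime (by exact_mod_cast hp.ne_zero)).2
      (Nat.prime_iff_prime_int.1 hp)
  · rw [ff_natDegree p hp h2]
    omega

theorem prm : PrmStmt := by
  intro p hp h2
  have h1 := (IsPrimitive.Int.irreducible_iff_irreducible_map_cast (ff_primitive p hp h2)).1
    (ff_irreducible p hp h2)
  have h3 : (ff p).map (Int.castRingHom ℚ) =
      algEquivAevalXAddC (1 : ℚ) (derivative (cyclotomic p ℚ)) := by
    rw [ff, map_comp, ← derivative_map, map_cyclotomic]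
    simp [algEquivAevalXAddC, comp, aeval_def]
  rw [h3] at h1
  exact (MulEquiv.irreducible_iff (algEquivAevalXAddC (1 : ℚ))).1 h1

end Pool.Agent.CYD.H7
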